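import Pool.Agent.H85.PS.Targets

/-!
# The derivation corresponds to `θ d/dX` (EVN)
-/

set_option autoImplicit false

open Polynomial Finset Pool.Agent.H85.PS

namespace Pool.Agent.H60.PSV

theorem mem_II {s D : ℕ} {e : Fin s → ℕ} : e ∈ II s D ↔ ∑ k, e k ≤ D := by
  unfold II
  rw [Finset.mem_filter, Fintype.mem_piFinset]
  refine ⟨fun h => h.2, fun h => ⟨fun k => ?_, h⟩⟩
  rw [Finset.mem_range]
  have h1 : e k ≤ ∑ k, e k := Finset.single_le_sum (fun _ _ => Nat.zero_le _) (Finset.mem_univ k)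
  omega

/-- the derivative of a finite product -/
theorem der_prod {ι : Type} [DecidableEq ι] (S : Finset ι) (f : ι → PowerSeries ℚ) :
    PowerSeries.derivative ℚ (∏ k ∈ S, f k) =
      ∑ k ∈ S, PowerSeries.derivative ℚ (f k) * ∏ j ∈ S.erase k, f j := by
  induction S using Finset.induction_on with
  | empty => simp
  | insert a S ha ih =>
    rw [Finset.prod_insert ha, Derivation.leibniz, ih, Finset.sum_insert ha,
      Finset.erase_insert ha, smul_eq_mul, smul_eq_mul, Finset.mul_sum, add_comm]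
    congr 1
    · ring
    · refine Finset.sum_congr rfl fun k hk => ?_
      have hka : k ≠ a := by
        rintro rfl
        exact ha hk
      have h1 : (insert a S).erase k = insert a (S.erase k) := by
        rw [Finset.erase_insert_of_ne (Ne.symm hka)]
      have h2 : a ∉ S.erase k := fun h => ha (Finset.mem_of_mem_erase h)
      rw [h1, Finset.prod_insert h2]
      ring

/-- the derivative of the logarithm -/
theorem der_lg (b : ℚ) :
    (1 + PowerSeries.C b * PowerSeries.X) * PowerSeries.derivative ℚ (lg b) = PowerSeries.C b := by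
  have h1 : PowerSeries.derivative ℚ (lg b) = PowerSeries.mk fun n => (-1) ^ n * b ^ (n + 1) := by
    ext n
    rw [PowerSeries.coeff_derivative, lg, PowerSeries.coeff_mk, PowerSeries.coeff_mk]
    push_cast
    have h2 : ((n : ℚ) + 1) ≠ 0 := by positivity
    field_simp
    ring
  rw [h1]
  ext n
  rw [add_mul, one_mul, map_add, mul_assoc, PowerSeries.coeff_C_mul]
  cases n with
  | zero =>
    rw [PowerSeries.coeff_zero_X_mul, PowerSeries.coeff_mk, PowerSeries.coeff_C]
    simp
  | succ n =>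
    rw [PowerSeries.coeff_succ_X_mul, PowerSeries.coeff_mk, PowerSeries.coeff_mk,
      PowerSeries.coeff_C, if_neg (by omega)]
    ring

theorem th_mul_der_lg {s : ℕ} (b : Fin s → ℚ) (k : Fin s) :
    ((th b : ℚ[X]) : PowerSeries ℚ) * PowerSeries.derivative ℚ (lg (b k)) =
      ((thk b k : ℚ[X]) : PowerSeries ℚ) := by
  have h1 : th b = (1 + C (b k) * X) * ∏ j ∈ univ.erase k, (1 + C (b j) * X) := by
    unfold th
    rw [Finset.mul_prod_erase univ (fun j => (1 + C (b j) * X : ℚ[X])) (Finset.mem_univ k)]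
  have h2 : (((1 + C (b k) * X : ℚ[X])) : PowerSeries ℚ) =
      1 + PowerSeries.C (b k) * PowerSeries.X := by
    rw [Polynomial.coe_add, Polynomial.coe_one, Polynomial.coe_mul, Polynomial.coe_C,
      Polynomial.coe_X]
  rw [h1, thk, Polynomial.coe_mul, Polynomial.coe_mul, Polynomial.coe_C, h2, mul_right_comm,
    der_lg]

/-- the derivative of a monomial in the logarithms -/
theorem th_mul_der_prod {s : ℕ} (b : Fin s → ℚ) (e : Fin s → ℕ) :
    ((th b : ℚ[X]) : PowerSeries ℚ) * PowerSeries.derivative ℚ (∏ k, lg (b k) ^ e k) =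
      ∑ k, ((thk b k : ℚ[X]) : PowerSeries ℚ) * (((e k : ℕ) : PowerSeries ℚ) *
        ∏ j, lg (b j) ^ (e - Pi.single k 1 : Fin s → ℕ) j) := by
  classical
  rw [der_prod, Finset.mul_sum]
  refine Finset.sum_congr rfl fun k _ => ?_
  have h1 : ∏ j, lg (b j) ^ (e - Pi.single k 1 : Fin s → ℕ) j =
      lg (b k) ^ (e k - 1) * ∏ j ∈ univ.erase k, lg (b j) ^ e j := by
    refine (Finset.mul_prod_erase univ (fun j => lg (b j) ^ (e - Pi.single k 1 : Fin s → ℕ) j)
      (Finset.mem_univ k)).symm.trans ?_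
    congr 1
    · rw [Pi.sub_apply, Pi.single_eq_same]
    · refine Finset.prod_congr rfl fun j hj => ?_
      rw [Pi.sub_apply, Pi.single_eq_of_ne (Finset.ne_of_mem_erase hj), Nat.sub_zero]
  rw [h1, Derivation.leibniz_pow, nsmul_eq_mul, smul_eq_mul, ← th_mul_der_lg]
  ring

/-- the shift of the exponents -/
theorem shift_sum {s D : ℕ} (A : Vec s) (hA : Sup D A) (f : Fin s → PowerSeries ℚ) (k : Fin s) :
    ∑ e ∈ II s D, (((e k + 1 : ℕ) : PowerSeries ℚ) *
        ((A (e + Pi.single k 1) : ℚ[X]) : PowerSeries ℚ)) * ∏ j, f j ^ e j =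
      ∑ e ∈ II s D, (((e k : ℕ) : PowerSeries ℚ) * ((A e : ℚ[X]) : PowerSeries ℚ)) *
        ∏ j, f j ^ (e - Pi.single k 1 : Fin s → ℕ) j := by
  classical
  have hsingle : ∀ e : Fin s → ℕ, ∑ j, (e + Pi.single k 1 : Fin s → ℕ) j = ∑ j, e j + 1 := by
    intro e
    simp only [Pi.add_apply]
    rw [Finset.sum_add_distrib, Finset.sum_pi_single']
    simp
  have h1 : ∑ e ∈ II s D, (((e k + 1 : ℕ) : PowerSeries ℚ) *
        ((A (e + Pi.single k 1) : ℚ[X]) : PowerSeries ℚ)) * ∏ j, f j ^ e j =
      ∑ e ∈ (II s D).filter (fun e => e + Pi.single k 1 ∈ II s D),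
        (((e k + 1 : ℕ) : PowerSeries ℚ) *
        ((A (e + Pi.single k 1) : ℚ[X]) : PowerSeries ℚ)) * ∏ j, f j ^ e j := by
    symm
    refine Finset.sum_subset (Finset.filter_subset _ _) fun e he hne => ?_
    have h2 : e + Pi.single k 1 ∉ II s D := fun h => hne (Finset.mem_filter.2 ⟨he, h⟩)
    rw [mem_II, not_le] at h2
    rw [hA _ h2, Polynomial.coe_zero, mul_zero, zero_mul]
  have h3 : ∑ e ∈ II s D, (((e k : ℕ) : PowerSeries ℚ) * ((A e : ℚ[X]) : PowerSeries ℚ)) *
        ∏ j, f j ^ (e - Pi.single k 1 : Fin s → ℕ) j =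
      ∑ e ∈ (II s D).filter (fun e => e k ≠ 0),
        (((e k : ℕ) : PowerSeries ℚ) * ((A e : ℚ[X]) : PowerSeries ℚ)) *
        ∏ j, f j ^ (e - Pi.single k 1 : Fin s → ℕ) j := by
    symm
    refine Finset.sum_subset (Finset.filter_subset _ _) fun e he hne => ?_
    have h2 : e k = 0 := by
      by_contra h
      exact hne (Finset.mem_filter.2 ⟨he, h⟩)
    rw [h2, Nat.cast_zero, zero_mul, zero_mul]
  rw [h1, h3]
  refine Finset.sum_bij' (fun e _ => e + Pi.single k 1) (fun e _ => e - Pi.single k 1)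
    ?_ ?_ ?_ ?_ ?_
  · intro e he
    rw [Finset.mem_filter] at he ⊢
    refine ⟨he.2, ?_⟩
    rw [Pi.add_apply, Pi.single_eq_same]
    omega
  · intro e he
    rw [Finset.mem_filter] at he ⊢
    have h4 : (e - Pi.single k 1 + Pi.single k 1 : Fin s → ℕ) = e := by
      funext j
      simp only [Pi.add_apply, Pi.sub_apply]
      by_cases hj : j = k
      · subst hj
        rw [Pi.single_eq_same]
        have := he.2
        omega
      · rw [Pi.single_eq_of_ne hj]
        omega
    rw [h4]
    refine ⟨?_, he.1⟩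
    rw [mem_II] at he ⊢
    have h5 := hsingle (e - Pi.single k 1)
    rw [h4] at h5
    omega
  · intro e _
    funext j
    simp only [Pi.add_apply, Pi.sub_apply]
    omega
  · intro e he
    rw [Finset.mem_filter] at he
    funext j
    simp only [Pi.add_apply, Pi.sub_apply]
    by_cases hj : j = k
    · subst hj
      rw [Pi.single_eq_same]
      have := he.2
      omega
    · rw [Pi.single_eq_of_ne hj]
      omega
  · intro e _
    have h4 : (e + Pi.single k 1 - Pi.single k 1 : Fin s → ℕ) = e := by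
      funext j
      simp only [Pi.add_apply, Pi.sub_apply]
      omega
    rw [h4, Pi.add_apply, Pi.single_eq_same]

/-- EVN -/
theorem pf_EVN : T_EVN := by
  classical
  intro s D b A hA
  have hR : ((th b : ℚ[X]) : PowerSeries ℚ) * PowerSeries.derivative ℚ (evf b D A) =
      ∑ e ∈ II s D, (((th b * derivative (A e) : ℚ[X]) : PowerSeries ℚ) * ∏ k, lg (b k) ^ e k +
        ∑ k, ((thk b k : ℚ[X]) : PowerSeries ℚ) *
          ((((e k : ℕ) : PowerSeries ℚ) * ((A e : ℚ[X]) : PowerSeries ℚ)) *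
            ∏ j, lg (b j) ^ (e - Pi.single k 1 : Fin s → ℕ) j)) := by
    unfold evf
    rw [map_sum, Finset.mul_sum]
    refine Finset.sum_congr rfl fun e _ => ?_
    rw [Derivation.leibniz, smul_eq_mul, smul_eq_mul, PowerSeries.derivative_coe, mul_add,
      add_comm, Polynomial.coe_mul]
    congr 1
    · ring
    · rw [mul_left_comm, th_mul_der_prod, Finset.mul_sum]
      refine Finset.sum_congr rfl fun k _ => ?_
      ring
  have hL : evf b D (nab b A) =
      ∑ e ∈ II s D, (((th b * derivative (A e) : ℚ[X]) : PowerSeries ℚ) * ∏ k, lg (b k) ^ e k +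
        ∑ k, ((thk b k : ℚ[X]) : PowerSeries ℚ) *
          ((((e k + 1 : ℕ) : PowerSeries ℚ) *
            ((A (e + Pi.single k 1) : ℚ[X]) : PowerSeries ℚ)) * ∏ j, lg (b j) ^ e j)) := by
    unfold evf nab
    refine Finset.sum_congr rfl fun e _ => ?_
    rw [Polynomial.coe_add, add_mul]
    congr 1
    have h1 : ((∑ k, thk b k * ((e k + 1 : ℕ) : ℚ[X]) * A (e + Pi.single k 1) : ℚ[X]) :
        PowerSeries ℚ) = ∑ k, ((thk b k : ℚ[X]) : PowerSeries ℚ) *
          (((e k + 1 : ℕ) : PowerSeries ℚ) *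
            ((A (e + Pi.single k 1) : ℚ[X]) : PowerSeries ℚ)) := by
      rw [← Polynomial.coeToPowerSeries.ringHom_apply, map_sum]
      refine Finset.sum_congr rfl fun k _ => ?_
      rw [map_mul, map_mul, map_natCast]
      simp only [Polynomial.coeToPowerSeries.ringHom_apply]
      ring
    rw [h1, Finset.sum_mul]
    refine Finset.sum_congr rfl fun k _ => ?_
    ring
  rw [hL, hR, Finset.sum_add_distrib, Finset.sum_add_distrib]
  congr 1
  rw [Finset.sum_comm]
  conv_rhs => rw [Finset.sum_comm]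
  refine Finset.sum_congr rfl fun k _ => ?_
  rw [← Finset.mul_sum, ← Finset.mul_sum, shift_sum A hA (fun j => lg (b j)) k]

end Pool.Agent.H60.PSV
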