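import Pool.Agent.H85.PS.Targets

/-!
# Residues of the logarithmic derivative (PL2)
-/

set_option autoImplicit false

open Polynomial Finset Pool.Agent.H85.PS

namespace Pool.Agent.H60.PSV

theorem q_mul_der (ρ : ℚ) (n : ℕ) :
    (X - C ρ) * derivative ((X - C ρ) ^ n) = C (n : ℚ) * (X - C ρ) ^ n := by
  rw [derivative_X_sub_C_pow]
  cases n with
  | zero => simp
  | succ n =>
    rw [Nat.add_sub_cancel, pow_succ]
    ring

theorem pow_unique {ρ : ℚ} {m n : ℕ} {A B : ℚ[X]} (hA : A.eval ρ ≠ 0) (hB : B.eval ρ ≠ 0)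
    (h : (X - C ρ) ^ m * A = (X - C ρ) ^ n * B) : m = n := by
  have hq : (X - C ρ : ℚ[X]) ≠ 0 := X_sub_C_ne_zero ρ
  rcases lt_trichotomy m n with h1 | h1 | h1
  · exfalso
    obtain ⟨d, rfl⟩ := Nat.exists_eq_add_of_lt h1
    rw [add_assoc, pow_add, mul_assoc] at h
    have h2 := mul_left_cancel₀ (pow_ne_zero m hq) h
    apply hA
    rw [h2, pow_succ]
    simp
  · exact h1
  · exfalso
    obtain ⟨d, rfl⟩ := Nat.exists_eq_add_of_lt h1
    rw [add_assoc, pow_add, mul_assoc] at h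
    have h2 := mul_left_cancel₀ (pow_ne_zero n hq) h
    apply hB
    rw [← h2, pow_succ]
    simp

theorem exists_split {a : ℚ[X]} (ha : a ≠ 0) (ρ : ℚ) :
    ∃ (m : ℕ) (a1 : ℚ[X]), a = (X - C ρ) ^ m * a1 ∧ a1.eval ρ ≠ 0 := by
  obtain ⟨a1, h1, h2⟩ := exists_eq_pow_rootMultiplicity_mul_and_not_dvd a ha ρ
  refine ⟨_, a1, h1, fun h3 => h2 ?_⟩
  rw [dvd_iff_isRoot]
  exact h3

/-- PL2 -/
theorem pf_PL2 : T_PL2 := by
  classical
  intro s b hinj hb a w κ ha heq k
  by_contra hk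
  obtain ⟨ρ, hρ⟩ : ∃ ρ : ℚ, ρ = -1 / b k := ⟨_, rfl⟩
  have hbk := hb k
  have hbρ : b k * ρ = -1 := by
    rw [hρ]
    field_simp
  have hq : (X - C ρ : ℚ[X]) ≠ 0 := X_sub_C_ne_zero ρ
  -- the factor
  have hth : th b = (X - C ρ) * thk b k := by
    unfold th thk
    rw [← Finset.mul_prod_erase univ (fun j => (1 + C (b j) * X : ℚ[X])) (Finset.mem_univ k)]
    have h1 : (1 + C (b k) * X : ℚ[X]) = (X - C ρ) * C (b k) := by
      have h2 : (C (b k) * C ρ : ℚ[X]) = -1 := by
        rw [← C_mul, hbρ, C_neg, C_1]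
      linear_combination h2
    rw [h1]
    ring
  have hthk : (thk b k).eval ρ ≠ 0 := by
    unfold thk
    rw [eval_mul, eval_C, eval_prod]
    refine mul_ne_zero hbk (Finset.prod_ne_zero_iff.2 fun j hj => ?_)
    rw [eval_add, eval_one, eval_mul, eval_C, eval_X]
    intro h0
    have h1 : b j * ρ = b k * ρ := by rw [hbρ]; linarith
    have h2 : ρ ≠ 0 := by
      intro h
      rw [h, mul_zero] at hbρ
      norm_num at hbρ
    have h3 := mul_right_cancel₀ h2 h1
    exact (Finset.ne_of_mem_erase hj) (hinj h3)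
  have hother : ∀ j, j ≠ k → (thk b j).eval ρ = 0 := by
    intro j hj
    unfold thk
    rw [eval_mul, eval_prod, Finset.prod_eq_zero (Finset.mem_erase.2 ⟨Ne.symm hj,
      Finset.mem_univ k⟩), mul_zero]
    rw [eval_add, eval_one, eval_mul, eval_C, eval_X, hbρ]
    norm_num
  obtain ⟨S, hSdef⟩ : ∃ S : ℚ[X], S = ∑ k, C (κ k) * thk b k := ⟨_, rfl⟩
  have hS : S.eval ρ ≠ 0 := by
    rw [hSdef, eval_finset_sum, Finset.sum_eq_single k]
    · rw [eval_mul, eval_C]
      exact mul_ne_zero hk hthk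
    · intro j _ hj
      rw [eval_mul, hother j hj, mul_zero]
    · intro h
      exact absurd (Finset.mem_univ k) h
  rw [← hSdef, hth] at heq
  have hS0 : S ≠ 0 := by
    rintro h
    rw [h, eval_zero] at hS
    exact hS rfl
  obtain ⟨μ, a1, ha1, ha1ρ⟩ := exists_split ha ρ
  by_cases hw : w = 0
  · rw [hw, derivative_zero, mul_zero, mul_zero, sub_zero, mul_zero] at heq
    exact (mul_ne_zero (pow_ne_zero 2 ha) hS0) heq.symm
  · obtain ⟨ν, w1, hw1, hw1ρ⟩ := exists_split hw ρ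
    obtain ⟨V, hV⟩ : ∃ V : ℚ[X], V = C ((ν : ℚ) - μ) * (a1 * w1) +
      (X - C ρ) * (a1 * derivative w1 - derivative a1 * w1) := ⟨_, rfl⟩
    have hmain : (X - C ρ) * (a * derivative w - derivative a * w) =
        (X - C ρ) ^ (μ + ν) * V := by
      rw [hV, ha1, hw1, derivative_mul, derivative_mul, pow_add, C_sub]
      have h1 := q_mul_der ρ μ
      have h2 := q_mul_der ρ ν
      linear_combination ((X - C ρ) ^ μ * a1 * w1) * h2 - ((X - C ρ) ^ ν * a1 * w1) * h1
    have hE : (X - C ρ) ^ (μ + ν) * (thk b k * V) = (X - C ρ) ^ (2 * μ) * (a1 ^ 2 * S) := by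
      have h3 : (X - C ρ) * thk b k * (a * derivative w - derivative a * w) =
          thk b k * ((X - C ρ) * (a * derivative w - derivative a * w)) := by ring
      rw [h3, hmain] at heq
      calc (X - C ρ) ^ (μ + ν) * (thk b k * V) = thk b k * ((X - C ρ) ^ (μ + ν) * V) := by ring
        _ = a ^ 2 * S := heq
        _ = (X - C ρ) ^ (2 * μ) * (a1 ^ 2 * S) := by
            rw [ha1, mul_pow, ← pow_mul, mul_comm μ 2]
            ring
    have hRHS : (a1 ^ 2 * S).eval ρ ≠ 0 := by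
      rw [eval_mul, eval_pow]
      exact mul_ne_zero (pow_ne_zero 2 ha1ρ) hS
    by_cases hμν : ν = μ
    · have hV2 : V = (X - C ρ) * (a1 * derivative w1 - derivative a1 * w1) := by
        rw [hV, hμν, sub_self, C_0, zero_mul, zero_add]
      rw [hμν, ← two_mul] at hE
      have h4 := mul_left_cancel₀ (pow_ne_zero (2 * μ) hq) hE
      apply hRHS
      rw [← h4, hV2]
      simp
    · have hLHS : (thk b k * V).eval ρ ≠ 0 := by
        rw [eval_mul]
        refine mul_ne_zero hthk ?_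
        rw [hV]
        simp only [eval_add, eval_mul, eval_C, eval_sub, eval_X, sub_self, zero_mul, add_zero]
        refine mul_ne_zero ?_ (mul_ne_zero ha1ρ hw1ρ)
        rw [sub_ne_zero]
        exact_mod_cast hμν
      have h5 := pow_unique hLHS hRHS hE
      omega

end Pool.Agent.H60.PSV
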